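import Mathlib
import Pool.Agent.Helper771.LieHomogNilp

/-!
# All varieties `Θ_{P,n}` of nilpotent Lie algebras are logically perfect and logically regular

The logical homogeneity of the free algebras is the starting result for MP_4b2ccd_lc (helper771);
here we deduce perfectness and regularity.
-/

set_option autoImplicit false

namespace Pool.Agent.Results.MP_8011ed_lc.AllPerfectAndRegular

open FirstOrder Pool.Agent.Helper771.LieHomog

universe u v w

/-- The Lie algebra `H` belongs to the variety `Θ_{P,n}`: it is nilpotent of class at most `n`. -/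
def InVariety (K : Type u) [Field K] (n : ℕ) (H : Type v) [LieRing H] [LieAlgebra K H] : Prop :=
  LieModule.lowerCentralSeries K H H n = ⊥

/-- The type of a tuple. -/
def Tp (K : Type u) [Field K] (H : Type v) [LieRing H] [LieAlgebra K H] {m : ℕ}
    (μ : Fin m → H) : Set ((lieLang K).Formula (Fin m)) := {φ | φ.Realize μ}

/-- Two Lie algebras are isotypic: for each `m` the same types of `m`-tuples are realised. -/
def Isotypic (K : Type u) [Field K] (H₁ : Type v) [LieRing H₁] [LieAlgebra K H₁]
    (H₂ : Type w) [LieRing H₂] [LieAlgebra K H₂] : Prop :=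
  ∀ m : ℕ, {T | ∃ μ : Fin m → H₁, Tp K H₁ μ = T} = {T | ∃ μ : Fin m → H₂, Tp K H₂ μ = T}

/-- Logical homogeneity: two tuples have the same type exactly when an automorphism carries one
to the other. -/
def Homogeneous (K : Type u) [Field K] (H : Type v) [LieRing H] [LieAlgebra K H] : Prop :=
  ∀ (m : ℕ) (μ ν : Fin m → H), Tp K H μ = Tp K H ν ↔ ∃ σ : H ≃ₗ⁅K⁆ H, ∀ i, ν i = σ (μ i)

/-- Logical separability of a member `H` of the variety. -/
def Separable (K : Type u) [Field K] (n : ℕ) (H : Type v) [LieRing H] [LieAlgebra K H] : Prop :=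
  ∀ (H' : Type w) [LieRing H'] [LieAlgebra K H'], InVariety K n H' → Isotypic K H' H →
    Nonempty (H' ≃ₗ⁅K⁆ H)

/-- `Θ_{P,n}` is logically perfect. `FreeNilpLie K k n`, the quotient of the free Lie algebra on
`k` generators by `γ_{n+1}`, is the free algebra of the variety on `k` generators. -/
def LogicallyPerfect (K : Type u) [Field K] (n : ℕ) : Prop :=
  ∀ k : ℕ, Homogeneous K (FreeNilpLie K k n)

/-- `Θ_{P,n}` is logically regular. -/
def LogicallyRegular (K : Type u) [Field K] (n : ℕ) : Prop :=
  ∀ k : ℕ, Separable.{u, u, w} K n (FreeNilpLie K k n)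

/-! ### Types and isomorphisms -/

/-- an isomorphism of Lie algebras as an isomorphism of structures -/
def toLEquiv {K : Type u} [Field K] {H : Type v} [LieRing H] [LieAlgebra K H] {H' : Type w}
    [LieRing H'] [LieAlgebra K H'] (σ : H ≃ₗ⁅K⁆ H') : H ≃[lieLang K] H' where
  toEquiv := σ.toLinearEquiv.toEquiv
  map_fun' := by
    intro n f xs
    match n, f with
    | _, LieFn.zero => exact map_zero σ
    | _, LieFn.add => exact map_add σ _ _
    | _, LieFn.neg => exact map_neg σ _
    | _, LieFn.bracket => exact LieEquiv.map_lie σ _ _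
    | _, LieFn.smul c => exact map_smul σ c _
  map_rel' := by
    intro n r
    exact r.elim

theorem tp_map {K : Type u} [Field K] {H : Type v} [LieRing H] [LieAlgebra K H] {H' : Type w}
    [LieRing H'] [LieAlgebra K H'] (σ : H ≃ₗ⁅K⁆ H') {m : ℕ} (μ : Fin m → H) :
    Tp K H' (fun i => σ (μ i)) = Tp K H μ := by
  ext φ
  have h := Language.StrongHomClass.realize_formula (toLEquiv σ) φ (v := μ)
  exact h

theorem subsingleton_zero (K : Type u) [Field K] (n : ℕ) : Subsingleton (FreeNilpLie K 0 n) := by
  have h := nilp_gen K 0 n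
  rw [Set.range_eq_empty, LieSubalgebra.span_empty] at h
  constructor
  intro a b
  have ha : a ∈ (⊥ : LieSubalgebra K (FreeNilpLie K 0 n)) := by rw [h]; trivial
  have hb : b ∈ (⊥ : LieSubalgebra K (FreeNilpLie K 0 n)) := by rw [h]; trivial
  rw [LieSubalgebra.mem_bot] at ha hb
  rw [ha, hb]

theorem perfect (K : Type u) [Field K] (n : ℕ) (hn : 1 ≤ n) : LogicallyPerfect K n := by
  intro k m μ ν
  constructor
  · intro h
    rcases Nat.eq_zero_or_pos m with rfl | hm
    · exact ⟨LieEquiv.refl, fun i => i.elim0⟩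
    rcases Nat.eq_zero_or_pos k with rfl | hk
    · have := subsingleton_zero K n
      exact ⟨LieEquiv.refl, fun i => Subsingleton.elim _ _⟩
    obtain ⟨σ, hσ⟩ := nilpotent_homogeneous K k n hk hn m hm μ ν (fun φ => Set.ext_iff.1 h φ)
    exact ⟨σ, fun i => (hσ i).symm⟩
  · rintro ⟨σ, hσ⟩
    have : ν = fun i => σ (μ i) := funext hσ
    rw [this, tp_map]

/-! ### Regularity -/

theorem exists_lift' (K : Type u) [Field K] (r n : ℕ) {B : Type v} [LieRing B] [LieAlgebra K B]
    (hB : InVariety K n B) (y : Fin r → B) :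
    ∃ g : FreeNilpLie K r n →ₗ⁅K⁆ B, ∀ i, g (gx K r n i) = y i := by
  let f : FreeLieAlgebra K (Fin r) →ₗ⁅K⁆ B := FreeLieAlgebra.lift K y
  have hf : ∀ k : ℕ, ∀ a ∈ LieModule.lowerCentralSeries K (FreeLieAlgebra K (Fin r))
      (FreeLieAlgebra K (Fin r)) k, f a ∈ LieModule.lowerCentralSeries K B B k := by
    intro k a ha
    have h1 := LieIdeal.map_lowerCentralSeries_le (f := f) k
    exact h1 (LieIdeal.mem_map ha)
  let g₀ : FreeNilpLie K r n →ₗ[K] B :=
    (LieModule.lowerCentralSeries K (FreeLieAlgebra K (Fin r)) (FreeLieAlgebra K (Fin r))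
      n).toSubmodule.liftQ (f : FreeLieAlgebra K (Fin r) →ₗ[K] B) (by
        intro a ha
        have h2 := hf n a ha
        rw [hB] at h2
        exact h2)
  have hg : ∀ a, g₀ (qm K r n a) = f a := fun a => rfl
  refine ⟨{ g₀ with map_lie' := ?_ }, ?_⟩
  · intro a b
    obtain ⟨a, rfl⟩ := qm_surj K r n a
    obtain ⟨b, rfl⟩ := qm_surj K r n b
    change g₀ ⁅qm K r n a, qm K r n b⁆ = ⁅g₀ (qm K r n a), g₀ (qm K r n b)⁆
    rw [← LieHom.map_lie, hg, hg, hg, LieHom.map_lie]
  · intro i
    change g₀ (qm K r n (FreeLieAlgebra.of K i)) = y i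
    rw [hg]
    simp [f]

theorem map_realize' {K : Type u} [Field K] {F : Type v} [LieRing F] [LieAlgebra K F] {F' : Type w}
    [LieRing F'] [LieAlgebra K F'] (σ : F →ₗ⁅K⁆ F') {α : Type*} (v : α → F)
    (t : (lieLang K).Term α) : σ (t.realize v) = t.realize (fun a => σ (v a)) := by
  induction t with
  | var a => rfl
  | @func l f ts ih =>
    match l, f with
    | _, LieFn.zero => exact map_zero σ
    | _, LieFn.add =>
      change σ ((ts 0).realize v + (ts 1).realize v) = _
      rw [map_add, ih 0, ih 1]; rfl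
    | _, LieFn.neg =>
      change σ (-(ts 0).realize v) = _
      rw [map_neg, ih 0]; rfl
    | _, LieFn.bracket =>
      change σ ⁅(ts 0).realize v, (ts 1).realize v⁆ = _
      rw [LieHom.map_lie, ih 0, ih 1]; rfl
    | _, LieFn.smul c =>
      change σ (c • (ts 0).realize v) = _
      rw [map_smul, ih 0]; rfl

theorem regular (K : Type u) [Field K] (n : ℕ) (hn : 1 ≤ n) : LogicallyRegular.{u, w} K n := by
  intro k H' _ _ hH' hiso
  let x : Fin k → FreeNilpLie K k n := gx K k n
  have hgen : LieSubalgebra.lieSpan K (FreeNilpLie K k n) (Set.range x) = ⊤ := nilp_gen K k n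
  have h1 : Tp K _ x ∈ {T | ∃ μ : Fin k → H', Tp K H' μ = T} := by
    rw [hiso k]
    exact ⟨x, rfl⟩
  obtain ⟨y, hy⟩ := h1
  obtain ⟨g, hg⟩ := exists_lift' K k n hH' y
  have hinj : Function.Injective g := by
    rw [injective_iff_map_eq_zero]
    intro a ha
    obtain ⟨t, ht⟩ := exists_term hgen a
    have h2 : (Language.Term.equal t (zeroT K)) ∈ Tp K H' y := by
      change (Language.Term.equal t (zeroT K)).Realize y
      rw [Language.Formula.realize_equal]
      rw [← ht, map_realize'] at ha
      have h3 : (fun a => g (x a)) = y := funext hg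
      rw [h3] at ha
      exact ha
    rw [hy] at h2
    have h4 : (Language.Term.equal t (zeroT K)).Realize x := h2
    rw [Language.Formula.realize_equal] at h4
    rw [← ht]
    exact h4
  have hsurj : Function.Surjective g := by
    intro b
    have h2 : Tp K H' (Fin.snoc y b : Fin (k + 1) → H') ∈
        {T | ∃ μ : Fin (k + 1) → FreeNilpLie K k n, Tp K _ μ = T} := by
      rw [← hiso (k + 1)]
      exact ⟨_, rfl⟩
    obtain ⟨z, hz⟩ := h2
    have h3 : Tp K _ x = Tp K _ (fun i : Fin k => z i.castSucc) := by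
      rw [← hy]
      ext φ
      have h4 := Set.ext_iff.1 hz (φ.relabel Fin.castSucc)
      change (φ.relabel Fin.castSucc).Realize z ↔ (φ.relabel Fin.castSucc).Realize _ at h4
      rw [Language.Formula.realize_relabel, Language.Formula.realize_relabel] at h4
      have h5 : (Fin.snoc y b : Fin (k + 1) → H') ∘ Fin.castSucc = y := by
        funext i
        simp
      rw [h5] at h4
      exact h4.symm
    obtain ⟨σ, hσ⟩ := (perfect K n hn k k x _).1 h3
    obtain ⟨t, ht⟩ := exists_term hgen (σ.symm (z (Fin.last k)))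
    have h6 : t.realize (fun i : Fin k => z i.castSucc) = z (Fin.last k) := by
      have h7 : (fun i : Fin k => z i.castSucc) = fun i => (σ : _ →ₗ⁅K⁆ _) (x i) := funext hσ
      rw [h7, ← map_realize', ht]
      exact σ.apply_symm_apply _
    let ψ : (lieLang K).Formula (Fin (k + 1)) :=
      Language.Term.equal (t.relabel Fin.castSucc) (Language.Term.var (Fin.last k))
    have h8 : ψ ∈ Tp K _ z := by
      change ψ.Realize z
      rw [Language.Formula.realize_equal, Language.Term.realize_relabel]
      exact h6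
    rw [hz] at h8
    have h9 : ψ.Realize (Fin.snoc y b : Fin (k + 1) → H') := h8
    rw [Language.Formula.realize_equal, Language.Term.realize_relabel] at h9
    have h10 : (Fin.snoc y b : Fin (k + 1) → H') ∘ Fin.castSucc = fun i => g (x i) := by
      funext i
      simp [x, hg]
    rw [h10, ← map_realize'] at h9
    refine ⟨t.realize x, h9.trans ?_⟩
    simp
  exact ⟨(LieEquiv.ofBijective g ⟨hinj, hsurj⟩).symm⟩

/-- For every field `K` and every `n ≥ 1` the variety `Θ_{K,n}` of the Lie algebras over `K`
which are nilpotent of class at most `n` is logically perfect and logically regular. -/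
theorem result (K : Type u) [Field K] (n : ℕ) (hn : 1 ≤ n) :
    LogicallyPerfect K n ∧ LogicallyRegular.{u, w} K n :=
  ⟨perfect K n hn, regular K n hn⟩

end Pool.Agent.Results.MP_8011ed_lc.AllPerfectAndRegular
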